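import Pool.Agent.N418.CZ.Stm

/-!
# CZ/REMUL (helper401): reindexing and products of trace functions
-/

set_option autoImplicit false

namespace Pool.Agent.N401.CZ

open Module Pool.Agent.N418.CZ

theorem tr_reindex {k : ℕ} {ι κ : Type} [Fintype ι] [DecidableEq ι] [Fintype κ] [DecidableEq κ]
    (e : ι ≃ κ) (σ : Equiv.Perm κ) (x : ι → Mk k) :
    tr σ (fun a => x (e.symm a)) = tr (e.trans (σ.trans e.symm)) x := by
  unfold tr
  rw [← Equiv.sum_comp (e.arrowCongr (Equiv.refl (Fin k)))]
  refine Finset.sum_congr rfl fun j _ => ?_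
  rw [← Equiv.prod_comp e]
  refine Finset.prod_congr rfl fun s _ => ?_
  simp [Equiv.arrowCongr]

theorem re_mem {k : ℕ} {ι κ : Type} [Fintype ι] [DecidableEq ι] [Fintype κ] [DecidableEq κ]
    (e : ι ≃ κ) (φ : (κ → Mk k) → ℝ) (hφ : φ ∈ T k κ) :
    (fun x : ι → Mk k => φ (fun a => x (e.symm a))) ∈ T k ι := by
  unfold T at hφ
  induction hφ using Submodule.span_induction with
  | mem φ h =>
    obtain ⟨σ, rfl⟩ := h
    refine Submodule.subset_span ⟨e.trans (σ.trans e.symm), ?_⟩
    funext x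
    exact (tr_reindex e σ x).symm
  | zero => exact Submodule.zero_mem _
  | add φ ψ _ _ h1 h2 => exact Submodule.add_mem _ h1 h2
  | smul c φ _ h => exact Submodule.smul_mem _ c h

theorem t_RE : S_RE := by
  intro k ι κ _ _ _ _ e
  refine ⟨fun φ hφ => re_mem e φ hφ, ?_⟩
  let E : (ι → Mk k) ≃ (κ → Mk k) := e.arrowCongr (Equiv.refl (Mk k))
  have hmap : (T k κ).map (LinearEquiv.funCongrLeft ℝ ℝ E : ((κ → Mk k) → ℝ) →ₗ[ℝ] _) = T k ι := by
    apply le_antisymm
    · rintro _ ⟨φ, hφ, rfl⟩
      exact re_mem e φ hφ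
    · intro φ hφ
      refine ⟨fun y => φ (fun a => y (e a)), re_mem e.symm φ hφ, ?_⟩
      funext x
      show φ (fun a => x (e.symm (e a))) = φ x
      simp
  rw [← hmap]
  exact LinearEquiv.finrank_map_eq (LinearEquiv.funCongrLeft ℝ ℝ E) (T k κ)

theorem tr_mul {k : ℕ} {ι κ : Type} [Fintype ι] [DecidableEq ι] [Fintype κ] [DecidableEq κ]
    (σ : Equiv.Perm ι) (τ : Equiv.Perm κ) (x : ι ⊕ κ → Mk k) :
    tr σ (fun a => x (Sum.inl a)) * tr τ (fun a => x (Sum.inr a)) =
      tr (Equiv.sumCongr σ τ) x := by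
  unfold tr
  rw [← Equiv.sum_comp (Equiv.sumArrowEquivProdArrow ι κ (Fin k)).symm, Fintype.sum_prod_type,
    Finset.sum_mul_sum]
  refine Finset.sum_congr rfl fun i _ => Finset.sum_congr rfl fun j _ => ?_
  rw [Fintype.prod_sum_type]
  rfl

theorem t_MUL : S_MUL := by
  intro k ι κ _ _ _ _ φ hφ ψ hψ
  unfold T at hφ
  induction hφ using Submodule.span_induction with
  | mem φ h =>
    obtain ⟨σ, rfl⟩ := h
    unfold T at hψ
    induction hψ using Submodule.span_induction with
    | mem ψ h =>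
      obtain ⟨τ, rfl⟩ := h
      refine Submodule.subset_span ⟨Equiv.sumCongr σ τ, ?_⟩
      funext x
      exact (tr_mul σ τ x).symm
    | zero =>
      have : (fun x : ι ⊕ κ → Mk k => tr σ (fun a => x (Sum.inl a)) *
          (0 : (κ → Mk k) → ℝ) (fun a => x (Sum.inr a))) = 0 := by
        funext x
        simp
      rw [this]
      exact Submodule.zero_mem _
    | add ψ ψ' _ _ h1 h2 =>
      have : (fun x : ι ⊕ κ → Mk k => tr σ (fun a => x (Sum.inl a)) *
          (ψ + ψ') (fun a => x (Sum.inr a))) =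
          (fun x : ι ⊕ κ → Mk k => tr σ (fun a => x (Sum.inl a)) *
          ψ (fun a => x (Sum.inr a))) + (fun x : ι ⊕ κ → Mk k => tr σ (fun a => x (Sum.inl a)) *
          ψ' (fun a => x (Sum.inr a))) := by
        funext x
        simp only [Pi.add_apply]
        ring
      rw [this]
      exact Submodule.add_mem _ h1 h2
    | smul c ψ _ h =>
      have : (fun x : ι ⊕ κ → Mk k => tr σ (fun a => x (Sum.inl a)) *
          (c • ψ) (fun a => x (Sum.inr a))) =
          c • (fun x : ι ⊕ κ → Mk k => tr σ (fun a => x (Sum.inl a)) *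
          ψ (fun a => x (Sum.inr a))) := by
        funext x
        simp only [Pi.smul_apply, smul_eq_mul]
        ring
      rw [this]
      exact Submodule.smul_mem _ c h
  | zero =>
    have : (fun x : ι ⊕ κ → Mk k => (0 : (ι → Mk k) → ℝ) (fun a => x (Sum.inl a)) *
        ψ (fun a => x (Sum.inr a))) = 0 := by
      funext x
      simp
    rw [this]
    exact Submodule.zero_mem _
  | add φ φ' _ _ h1 h2 =>
    have : (fun x : ι ⊕ κ → Mk k => (φ + φ') (fun a => x (Sum.inl a)) *
        ψ (fun a => x (Sum.inr a))) =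
        (fun x : ι ⊕ κ → Mk k => φ (fun a => x (Sum.inl a)) *
        ψ (fun a => x (Sum.inr a))) + (fun x : ι ⊕ κ → Mk k => φ' (fun a => x (Sum.inl a)) *
        ψ (fun a => x (Sum.inr a))) := by
      funext x
      simp only [Pi.add_apply]
      ring
    rw [this]
    exact Submodule.add_mem _ h1 h2
  | smul c φ _ h =>
    have : (fun x : ι ⊕ κ → Mk k => (c • φ) (fun a => x (Sum.inl a)) *
        ψ (fun a => x (Sum.inr a))) =
        c • (fun x : ι ⊕ κ → Mk k => φ (fun a => x (Sum.inl a)) *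
        ψ (fun a => x (Sum.inr a))) := by
      funext x
      simp only [Pi.smul_apply, smul_eq_mul]
      ring
    rw [this]
    exact Submodule.smul_mem _ c h

end Pool.Agent.N401.CZ
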